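import Pool.Agent.Lib.lead.CXBase
import Pool.Agent.Lib.lead.CXRat

namespace Pool.Agent.Results.MP_6f953e_lc.Hard

open Pool.Agent.Lib.CX Finset

section
variable {W : Type} [Fintype W]

def IsMatching (G : SimpleGraph W) (M : Finset (Sym2 W)) : Prop :=
  (∀ e ∈ M, e ∈ G.edgeSet) ∧ ∀ e ∈ M, ∀ f ∈ M, ∀ v, v ∈ e → v ∈ f → e = f

def IsCover (G : SimpleGraph W) (w : Sym2 W → ℝ) (y : W → ℝ) : Prop :=
  (∀ v, 0 ≤ y v) ∧ ∀ u v, G.Adj u v → w s(u, v) ≤ y u + y v

/-- the maximum weight of a matching equals the minimum value of a fractional cover -/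
def Stable (G : SimpleGraph W) (w : Sym2 W → ℝ) : Prop :=
  ∃ t, IsGreatest {x | ∃ M, IsMatching G M ∧ x = ∑ e ∈ M, w e} t ∧ IsLeast {x | ∃ y, IsCover G w y ∧ x = ∑ v, y v} t
end

/-- a graph, a table of weights of pairs of vertices, a budget -/
abbrev Inst := Gr × List (List ℚ) × ℕ

/-- the weight of the pair `{u, v}` with `u < v` is the entry in row `u` and column `v` -/
def wt (I : Inst) (e : Sym2 (Fin I.1.n)) : ℝ := ((I.2.1.getD e.inf.1 []).getD e.sup.1 0 : ℚ)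

def Nonneg (I : Inst) : Prop := ∀ r ∈ I.2.1, ∀ x ∈ r, 0 ≤ x

def EdgeAdd (I : Inst) : Prop :=
  ∃ F : Finset (Sym2 (Fin I.1.n)), (∀ e ∈ F, ¬e.IsDiag ∧ e ∉ I.1.G.edgeSet) ∧ F.card ≤ I.2.2 ∧
    Stable (I.1.G ⊔ SimpleGraph.fromEdgeSet F) (wt I)

section
variable {W : Type} [Fintype W] [DecidableEq W] {G : SimpleGraph W} {w : Sym2 W → ℝ}

theorem sum_ends {M} (hM : IsMatching G M) (y : W → ℝ) :
    ∑ e ∈ M, ∑ v ∈ e.toFinset, y v = ∑ v ∈ M.biUnion Sym2.toFinset, y v :=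
  (sum_biUnion fun e he f hf h => disjoint_left.2 fun v h1 h2 =>
    h (hM.2 e he f hf v (Sym2.mem_toFinset.1 h1) (Sym2.mem_toFinset.1 h2))).symm

theorem le_ends {M y} (hM : IsMatching G M) (hy : IsCover G w y) : ∀ e ∈ M, w e ≤ ∑ v ∈ e.toFinset, y v := by
  intro e he
  have := hM.1 e he
  induction e using Sym2.ind with
  | h u v => rw [Sym2.toFinset_mk_eq, sum_pair (G.ne_of_adj this)]; exact hy.2 u v this

theorem weak {M y} (hM : IsMatching G M) (hy : IsCover G w y) : ∑ e ∈ M, w e ≤ ∑ v, y v :=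
  (sum_le_sum (le_ends hM hy)).trans
    ((sum_ends hM y).trans_le (sum_le_sum_of_subset_of_nonneg (subset_univ _) fun v _ _ => hy.1 v))

theorem stable_iff : Stable G w ↔ ∃ (μ : W → W → Prop) (y : W → ℝ), IsCover G w y ∧ (∀ u v, μ u v → μ v u) ∧
    (∀ u v v', μ u v → μ u v' → v = v') ∧ (∀ u v, μ u v → G.Adj u v ∧ y u + y v = w s(u, v)) ∧
    ∀ u, (∀ v, ¬μ u v) → y u = 0 := by
  constructor
  · rintro ⟨_, ⟨⟨M, hM, rfl⟩, -⟩, ⟨y, hy, e⟩, -⟩
    have h1 := sum_le_sum (le_ends hM hy)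
    have h2 := sum_ends hM y
    have h3 := sum_sdiff (f := y) (subset_univ (M.biUnion Sym2.toFinset))
    have h4 := sum_nonneg (s := univ \ M.biUnion Sym2.toFinset) fun v _ => hy.1 v
    refine ⟨fun u v => s(u, v) ∈ M, y, hy, fun u v h => (Sym2.eq_swap ▸ h : s(v, u) ∈ M), fun u v v' h h' => ?_, fun u v h => ?_,
      fun u h => ?_⟩
    · exact Sym2.congr_right.1 (hM.2 _ h _ h' u (by simp) (by simp))
    · have := (sum_eq_sum_iff_of_le (le_ends hM hy)).1 (by linarith) _ h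
      have a : G.Adj u v := hM.1 _ h
      rw [Sym2.toFinset_mk_eq, sum_pair a.ne] at this
      exact ⟨a, this.symm⟩
    · refine (sum_eq_zero_iff_of_nonneg (s := univ \ M.biUnion Sym2.toFinset) fun v _ => hy.1 v).1 (by linarith) u ?_
      simp only [mem_sdiff, mem_univ, mem_biUnion, Sym2.mem_toFinset, true_and]
      rintro ⟨e, he, h'⟩
      obtain ⟨v, rfl⟩ := Sym2.mem_iff_exists.1 h'
      exact h v he
  · rintro ⟨μ, y, hy, h1, h2, h3, h4⟩
    classical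
    let M : Finset (Sym2 W) := univ.filter fun e => ∃ u v, μ u v ∧ e = s(u, v)
    have k : ∀ e ∈ M, ∀ x ∈ e, ∃ v, μ x v ∧ e = s(x, v) := fun e he x hx => by
      obtain ⟨u, v, h, rfl⟩ := (mem_filter.1 he).2
      rcases Sym2.mem_iff.1 hx with rfl | rfl
      · exact ⟨_, h, rfl⟩
      · exact ⟨_, h1 _ _ h, Sym2.eq_swap⟩
    have hM : IsMatching G M := ⟨fun e he => by obtain ⟨u, v, h, rfl⟩ := (mem_filter.1 he).2; exact (h3 u v h).1,
      fun e he f hf x a b => by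
        obtain ⟨v, c, rfl⟩ := k e he x a
        obtain ⟨v', c', rfl⟩ := k f hf x b
        rw [h2 _ _ _ c c']⟩
    have e : ∑ e ∈ M, w e = ∑ v, y v := by
      rw [sum_congr rfl (g := fun e => ∑ v ∈ e.toFinset, y v), sum_ends hM]
      · refine sum_subset (subset_univ _) fun x _ hx => h4 x fun v h => hx ?_
        exact mem_biUnion.2 ⟨s(x, v), mem_filter.2 ⟨mem_univ _, _, _, h, rfl⟩, by simp⟩
      · intro e he
        obtain ⟨u, v, h, rfl⟩ := (mem_filter.1 he).2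
        rw [Sym2.toFinset_mk_eq, sum_pair (h3 u v h).1.ne, (h3 u v h).2]
    refine ⟨_, ⟨⟨M, hM, rfl⟩, ?_⟩, ⟨y, hy, e⟩, ?_⟩
    · rintro _ ⟨M', h, rfl⟩; exact (weak h hy).trans e.ge
    · rintro _ ⟨y', h, rfl⟩; exact weak hM h
end

abbrev V := ℕ × ℕ × (ℕ × ℕ) × ℕ

def vs (n : List Unit) (es : List (ℕ × ℕ)) : List V :=
  (List.range 5 ×ˢ es).map (fun p => (p.1, 0, p.2, 0)) ++ [5, 6] ×ˢ List.range n.length ×ˢ es ×ˢ List.range 3

def ed (es : List (ℕ × ℕ)) : List (V × V) :=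
  es.flatMap fun e => [((0, 0, e, 0), (1, 0, e, 0)), ((0, 0, e, 0), (2, 0, e, 0)), ((1, 0, e, 0), (2, 0, e, 0)),
    ((0, 0, e, 0), (3, 0, e, 0)), ((0, 0, e, 0), (4, 0, e, 0))] ++
    (es ×ˢ List.range 3).flatMap fun p => [((3, 0, e, 0), (5, e.1, p)), ((4, 0, e, 0), (5, e.2, p))]

def wq (es : List (ℕ × ℕ)) (a b : V) : ℚ :=
  if (a, b) ∈ ed es ∨ (b, a) ∈ ed es ∨ (a.1 + b.1 = 11 ∧ a.2 = b.2) then 1 else 0

def inst (a : List Unit × List (ℕ × ℕ) × ℕ) : Inst :=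
  (mkGr (vs a.1 a.2.1) (ed a.2.1), (vs a.1 a.2.1).dedup.map (fun x => (vs a.1 a.2.1).dedup.map (wq a.2.1 x)),
    3 * a.2.1.length * a.2.2)

theorem pt_inst : PT inst := by
  have h1 : PT fun a : List Unit × List (ℕ × ℕ) => vs a.1 a.2 := by unfold vs; fun_prop
  have h2 : PT ed := by unfold ed; fun_prop
  unfold inst wq; fun_prop

theorem nonneg (a) : Nonneg (inst a) := by
  simp only [Nonneg, inst, List.forall_mem_map, wq]
  intro _ _ _ _; split_ifs <;> simp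

inductive Ed (es : List (ℕ × ℕ)) : V → V → Prop
  | pq {e} : e ∈ es → Ed es (0, 0, e, 0) (1, 0, e, 0)
  | pr {e} : e ∈ es → Ed es (0, 0, e, 0) (2, 0, e, 0)
  | qr {e} : e ∈ es → Ed es (1, 0, e, 0) (2, 0, e, 0)
  | pa {e} : e ∈ es → Ed es (0, 0, e, 0) (3, 0, e, 0)
  | pb {e} : e ∈ es → Ed es (0, 0, e, 0) (4, 0, e, 0)
  | ac {u v f t} : (u, v) ∈ es → f ∈ es → t < 3 → Ed es (3, 0, (u, v), 0) (5, u, f, t)
  | bc {u v f t} : (u, v) ∈ es → f ∈ es → t < 3 → Ed es (4, 0, (u, v), 0) (5, v, f, t)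

theorem mem_ed {es a b} : (a, b) ∈ ed es ↔ Ed es a b := by
  simp only [ed, List.mem_flatMap, List.mem_append, List.mem_cons, List.not_mem_nil, or_false, Prod.mk.injEq]
  constructor
  · rintro ⟨⟨u, v⟩, he, (h | h | h | h | h) | ⟨⟨f, t⟩, hp, h | h⟩⟩ <;> obtain ⟨rfl, rfl⟩ := h <;> constructor <;>
      first | assumption | exact (List.pair_mem_product.1 hp).1 | exact List.mem_range.1 (List.pair_mem_product.1 hp).2
  · intro h
    cases h with
    | pq h | pr h | qr h | pa h | pb h => exact ⟨_, h, by simp⟩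
    | ac h h1 h2 | bc h h1 h2 =>
      exact ⟨_, h, .inr ⟨_, List.pair_mem_product.2 ⟨h1, List.mem_range.2 h2⟩, by simp⟩⟩

theorem mem_vs {n es} {a : V} : a ∈ vs n es ↔ a.2.2.1 ∈ es ∧ (a.1 < 5 ∧ a.2.1 = 0 ∧ a.2.2.2 = 0 ∨
    (a.1 = 5 ∨ a.1 = 6) ∧ a.2.1 < n.length ∧ a.2.2.2 < 3) := by
  obtain ⟨t, u, e, s⟩ := a
  simp only [vs, List.mem_append, List.mem_map, List.mem_product, List.mem_range, Prod.exists, Prod.mk.injEq,
    List.mem_cons]
  grind

/-- the name of a vertex -/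
def nm (a : List Unit × List (ℕ × ℕ) × ℕ) (i : Fin (inst a).1.n) : V := (mkGrEquiv _ _ i).1

theorem nm_inj {a i j} : nm a i = nm a j ↔ i = j :=
  ⟨fun h => (mkGrEquiv _ _).injective (Subtype.ext h), fun h => by rw [h]⟩
theorem nm_mem (a i) : nm a i ∈ vs a.1 a.2.1 := (mkGrEquiv _ _ i).2
theorem nm_surj {a x} (h : x ∈ vs a.1 a.2.1) : ∃ i, nm a i = x :=
  ⟨(mkGrEquiv _ _).symm ⟨x, h⟩, congrArg Subtype.val ((mkGrEquiv _ _).apply_symm_apply _)⟩
theorem adj_iff {a i j} : (inst a).1.G.Adj i j ↔ Ed a.2.1 (nm a i) (nm a j) ∨ Ed a.2.1 (nm a j) (nm a i) := by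
  refine (mkGrIso _ _).map_rel_iff.symm.trans ?_
  change (nm a i ≠ nm a j ∧ ((nm a i, nm a j) ∈ ed a.2.1 ∨ (nm a j, nm a i) ∈ ed a.2.1)) ↔ _
  rw [mem_ed, mem_ed, and_iff_right_iff_imp]
  intro h e
  rw [e, or_self] at h
  generalize nm a j = x at h
  cases h
theorem wq_comm (es a b) : wq es a b = wq es b a := by
  simp only [wq, add_comm a.1, eq_comm (a := a.2), or_left_comm]
theorem wt_eq {a i j} : wt (inst a) s(i, j) = wq a.2.1 (nm a i) (nm a j) := by
  have k : ∀ i j : Fin (inst a).1.n, ((inst a).2.1.getD i.1 []).getD j.1 0 = wq a.2.1 (nm a i) (nm a j) := fun i j => by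
    have h1 : i.1 < (vs a.1 a.2.1).dedup.length := i.2.trans_eq (mkGr_n _ _)
    have h2 : j.1 < (vs a.1 a.2.1).dedup.length := j.2.trans_eq (mkGr_n _ _)
    simp [inst, h1, h2, nm, mkGrEquiv]
  rw [wt, k, Sym2.inf_mk, Sym2.sup_mk]
  rcases le_total i j with h | h
  · rw [inf_eq_left.2 h, sup_eq_right.2 h]
  · rw [inf_eq_right.2 h, sup_eq_left.2 h, wq_comm]
theorem wq_ed {es a b} (h : Ed es a b) : wq es a b = 1 := if_pos (.inl (mem_ed.2 h))
theorem wq_cases (es a b) : wq es a b = 0 ∨ wq es a b = 1 ∧ (Ed es a b ∨ Ed es b a ∨ (a.1 + b.1 = 11 ∧ a.2 = b.2)) := by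
  rw [wq, ← mem_ed, ← mem_ed]; split_ifs with h <;> simp [*]

inductive Mu (es : List (ℕ × ℕ)) (n : ℕ) (S : Finset ℕ) : V → V → Prop
  | qr {e} : e ∈ es → Mu es n S (1, 0, e, 0) (2, 0, e, 0)
  | pa {e} : e ∈ es → e.1 ∈ S → Mu es n S (0, 0, e, 0) (3, 0, e, 0)
  | pb {e} : e ∈ es → e.1 ∉ S → Mu es n S (0, 0, e, 0) (4, 0, e, 0)
  | ac {u v} : (u, v) ∈ es → u ∉ S → Mu es n S (3, 0, (u, v), 0) (5, u, (u, v), 0)
  | bc {u v} : (u, v) ∈ es → v ∉ S → Mu es n S (4, 0, (u, v), 0) (5, v, (u, v), 0)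
  | cd {u e t} : e ∈ es → u ∈ S → u < n → t < 3 → Mu es n S (5, u, e, t) (6, u, e, t)

noncomputable def yv (S : Finset ℕ) (a : V) : ℝ :=
  [1, 1 / 2, 1 / 2, if a.2.2.1.1 ∈ S then 0 else 1, if a.2.2.1.2 ∈ S then 0 else 1,
    if a.2.1 ∈ S then 1 else 0].getD a.1 0

theorem yes {n es k} (h0 : ∀ e ∈ es, e.1 < e.2 ∧ e.2 < n.length) {S : Finset ℕ} (h1 : ∀ e ∈ es, e.1 ∈ S ∨ e.2 ∈ S)
    (h2 : S.card ≤ k) : EdgeAdd (inst (n, es, k)) := by
  classical
  set a := (n, es, k)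
  let T : Finset (Fin (inst a).1.n × Fin (inst a).1.n) :=
    univ.filter fun p => (nm a p.1).1 = 5 ∧ nm a p.2 = (6, (nm a p.1).2) ∧ (nm a p.1).2.1 ∈ S
  have mF : ∀ {e}, e ∈ T.image (fun p => s(p.1, p.2)) ↔
      ∃ i j, ((nm a i).1 = 5 ∧ nm a j = (6, (nm a i).2) ∧ (nm a i).2.1 ∈ S) ∧ s(i, j) = e := by simp [T, -Prod.mk.eta]
  refine ⟨T.image fun p => s(p.1, p.2), fun e he => ?_, card_image_le.trans ?_, stable_iff.2
    ⟨fun i j => Mu es n.length S (nm a i) (nm a j) ∨ Mu es n.length S (nm a j) (nm a i), fun i => yv S (nm a i),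
      ⟨fun i => ?_, fun i j h => ?_⟩, fun _ _ => Or.symm, fun i j l p q => nm_inj.1 ?_, ?_, fun i h => ?_⟩⟩
  · obtain ⟨i, j, ⟨p, q, -⟩, rfl⟩ := mF.1 he
    refine ⟨fun h => ?_, fun h => ?_⟩
    · obtain rfl : i = j := h
      rw [q] at p; cases p
    · have := adj_iff.1 h
      rw [q] at this
      generalize nm a i = x at this p
      rcases this with h | h <;> cases h
  · refine (card_le_card_of_injOn (t := S ×ˢ es.toFinset ×ˢ range 3) (fun p => (nm a p.1).2) (fun p hp => ?_)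
      fun p hp q hq e => ?_).trans ?_
    · have := mem_vs.1 (nm_mem a p.1)
      simp only [T, coe_filter, Set.mem_setOf] at hp
      simp only [coe_product, Set.mem_prod, mem_coe, List.mem_toFinset, mem_range]
      exact ⟨hp.2.2.2, this.1, by omega⟩
    · simp only [T, coe_filter, Set.mem_setOf] at hp hq
      exact Prod.ext (nm_inj.1 (Prod.ext (hp.2.1.trans hq.2.1.symm) e)) (nm_inj.1 (by rw [hp.2.2.1, hq.2.2.1]; exact congrArg _ e))
    · have := List.toFinset_card_le es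
      simp only [card_product, card_range, inst, a]
      nlinarith [Nat.mul_le_mul h2 this]
  · beta_reduce
    generalize nm a i = x
    rcases x with ⟨_ | _ | _ | _ | _ | _ | t, x⟩ <;> simp [yv] <;> split_ifs <;> norm_num
  · have k : ∀ x y, Ed es x y → (1 : ℝ) ≤ yv S x + yv S y := fun x y h => by
      cases h <;> simp [yv] <;> (try split_ifs) <;> norm_num
    rw [wt_eq]
    rcases h with h | ⟨h, -⟩
    · rcases adj_iff.1 h with h | h
      · rw [wq_ed h]; simpa using k _ _ h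
      · rw [wq_comm, wq_ed h, add_comm]; simpa using k _ _ h
    · obtain ⟨i', j', ⟨p, q, r⟩, e⟩ := mF.1 h
      have : (1 : ℝ) ≤ yv S (nm a i') + yv S (nm a j') := by simp [yv, p, q, r]
      have w1 : (wq es (nm a i) (nm a j) : ℝ) ≤ 1 := by rcases wq_cases es (nm a i) (nm a j) with h | ⟨h, -⟩ <;> simp [h]
      rcases Sym2.eq_iff.1 e with ⟨rfl, rfl⟩ | ⟨rfl, rfl⟩ <;> linarith
  · beta_reduce at p q
    generalize nm a i = x, nm a j = y, nm a l = z at p q ⊢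
    rcases p with p | p <;> cases p <;> rcases q with q | q <;> cases q <;> grind
  · have k : ∀ i j, Mu es n.length S (nm a i) (nm a j) → ((inst a).1.G ⊔ SimpleGraph.fromEdgeSet
        (T.image fun p => s(p.1, p.2))).Adj i j ∧ yv S (nm a i) + yv S (nm a j) = wt (inst a) s(i, j) := fun i j h => by
      have : (Ed es (nm a i) (nm a j) ∨ (nm a i).1 = 5 ∧ nm a j = (6, (nm a i).2) ∧ (nm a i).2.1 ∈ S) ∧
          yv S (nm a i) + yv S (nm a j) = 1 := by
        generalize nm a i = x, nm a j = y at h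
        cases h with
        | qr h => exact ⟨.inl (.qr h), by simp [yv]; norm_num⟩
        | pa h h' => exact ⟨.inl (.pa h), by simp [yv, h']⟩
        | pb h h' => exact ⟨.inl (.pb h), by simp [yv, (h1 _ h).resolve_left h']⟩
        | ac h h' => exact ⟨.inl (.ac h h (by omega)), by simp [yv, h']⟩
        | bc h h' => exact ⟨.inl (.bc h h (by omega)), by simp [yv, h']⟩
        | cd h h' => exact ⟨.inr ⟨rfl, rfl, h'⟩, by simp [yv, h']⟩
      rw [wt_eq, this.2]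
      rcases this.1 with h | h
      · exact ⟨.inl (adj_iff.2 (.inl h)), by rw [wq_ed h]; simp⟩
      · refine ⟨.inr ⟨mF.2 ⟨i, j, h, rfl⟩, ?_⟩, by simp [wq, h.1, h.2.1]⟩
        rintro rfl
        have := h.1; rw [h.2.1] at this; cases this
    rintro i j (h | h)
    · exact k i j h
    · rw [Sym2.eq_swap, add_comm]; exact ⟨(k j i h).1.symm, (k j i h).2⟩
  · have k : ∀ y, ¬(Mu es n.length S (nm a i) y ∨ Mu es n.length S y (nm a i)) := fun y h' => by
      obtain ⟨j, rfl⟩ : ∃ j, nm a j = y := by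
        refine nm_surj (mem_vs.2 ?_)
        generalize nm a i = x at h'
        rcases h' with h | h <;> cases h <;> simp [a, *] <;> grind
      exact h j h'
    have m := mem_vs.1 (nm_mem a i)
    beta_reduce
    generalize nm a i = x at k m
    obtain ⟨t, u, ⟨p, q⟩, s⟩ := x
    obtain ⟨m, ⟨m1, rfl, rfl⟩ | ⟨rfl | rfl, m2, m3⟩⟩ := m
    · interval_cases t
      · by_cases e : p ∈ S
        · exact (k _ (.inl (.pa m e))).elim
        · exact (k _ (.inl (.pb m e))).elim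
      · exact (k _ (.inl (.qr m))).elim
      · exact (k _ (.inr (.qr m))).elim
      · exact if_pos (by_contra fun e => k _ (.inl (.ac m e)))
      · exact if_pos (by_contra fun e => k _ (.inl (.bc m e)))
    · exact if_neg fun e => k _ (.inl (.cd m e m2 m3))
    · rfl

theorem tri_aux {W : Type} {μ : W → W → Prop} {y : W → ℝ} {p q r : W} {P : W → Prop} (y0 : ∀ v, 0 ≤ y v)
    (sy : ∀ u v, μ u v → μ v u) (fn : ∀ u v v', μ u v → μ u v' → v = v') (c1 : 1 ≤ y p + y q) (c2 : 1 ≤ y p + y r)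
    (c3 : 1 ≤ y q + y r)
    (e1 : y p = 0 ∨ μ p q ∧ y p + y q = 1 ∨ μ p r ∧ y p + y r = 1 ∨ ∃ i, P i ∧ μ p i ∧ y p + y i = 1)
    (e2 : y q = 0 ∨ μ q p ∧ y q + y p = 1 ∨ μ q r ∧ y q + y r = 1)
    (e3 : y r = 0 ∨ μ r p ∧ y r + y p = 1 ∨ μ r q ∧ y r + y q = 1) (n1 : p ≠ q) (n2 : p ≠ r) (n3 : q ≠ r)
    (n4 : ∀ i, P i → i ≠ q ∧ i ≠ r) : ∃ i, P i ∧ y i < 1 := by
  grind

theorem no {n es k} (h0 : ∀ e ∈ es, e.1 < e.2 ∧ e.2 < n.length) (hn : es.Nodup) (h : EdgeAdd (inst (n, es, k))) :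
    ∃ S : Finset ℕ, (∀ x ∈ S, x < n.length) ∧ (∀ e ∈ es, e.1 ∈ S ∨ e.2 ∈ S) ∧ S.card ≤ k := by
  classical
  set a := (n, es, k)
  obtain ⟨F, -, hF, h⟩ := h
  obtain ⟨μ, y, ⟨y0, cov⟩, sy, fn, tight, un⟩ := stable_iff.1 h
  have cv : ∀ {i j}, Ed es (nm a i) (nm a j) → 1 ≤ y i + y j := fun h => by
    simpa [wt_eq, a, wq_ed h] using cov _ _ (.inl (adj_iff.2 (.inl h)))
  have pos : ∀ {i}, y i = 0 ∨ ∃ j, μ i j ∧ y i + y j = 1 ∧ (Ed es (nm a i) (nm a j) ∨ Ed es (nm a j) (nm a i) ∨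
      ((nm a i).1 + (nm a j).1 = 11 ∧ (nm a i).2 = (nm a j).2)) := fun {i} => by
    by_cases e : ∃ j, μ i j
    · obtain ⟨j, e⟩ := e
      have := (tight _ _ e).2
      rw [wt_eq] at this
      rcases wq_cases es (nm a i) (nm a j) with h | ⟨h, h'⟩
      · left; simp only [a, h] at this; push_cast at this; linarith [y0 i, y0 j]
      · exact .inr ⟨j, e, by simpa [a, h] using this, h'⟩
    · exact .inl (un i (by simpa using e))
  have tri : ∀ e ∈ es, ∃ i, (nm a i = (3, 0, e, 0) ∨ nm a i = (4, 0, e, 0)) ∧ y i < 1 := fun e he => by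
    obtain ⟨p, hp⟩ := nm_surj (a := a) (x := (0, 0, e, 0)) (mem_vs.2 (by simp [a, he]))
    obtain ⟨q, hq⟩ := nm_surj (a := a) (x := (1, 0, e, 0)) (mem_vs.2 (by simp [a, he]))
    obtain ⟨r, hr⟩ := nm_surj (a := a) (x := (2, 0, e, 0)) (mem_vs.2 (by simp [a, he]))
    have c1 := cv (i := p) (j := q) (by rw [hp, hq]; exact .pq he)
    have c2 := cv (i := p) (j := r) (by rw [hp, hr]; exact .pr he)
    have c3 := cv (i := q) (j := r) (by rw [hq, hr]; exact .qr he)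
    have e1 : y p = 0 ∨ μ p q ∧ y p + y q = 1 ∨ μ p r ∧ y p + y r = 1 ∨
        ∃ i, (nm a i = (3, 0, e, 0) ∨ nm a i = (4, 0, e, 0)) ∧ μ p i ∧ y p + y i = 1 := by
      refine pos.imp_right fun ⟨j, m1, m2, m3⟩ => ?_
      have m := mem_vs.1 (nm_mem a j)
      rw [hp] at m3
      generalize hx : nm a j = x at m3 m
      rcases m3 with m3 | m3 | m3
      · cases m3
        · obtain rfl := nm_inj.1 (hx.trans hq.symm); exact .inl ⟨m1, m2⟩
        · obtain rfl := nm_inj.1 (hx.trans hr.symm); exact .inr (.inl ⟨m1, m2⟩)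
        · exact .inr (.inr ⟨j, .inl hx, m1, m2⟩)
        · exact .inr (.inr ⟨j, .inr hx, m1, m2⟩)
      · cases m3
      · omega
    have e2 : y q = 0 ∨ μ q p ∧ y q + y p = 1 ∨ μ q r ∧ y q + y r = 1 := by
      refine pos.imp_right fun ⟨j, m1, m2, m3⟩ => ?_
      have m := mem_vs.1 (nm_mem a j)
      rw [hq] at m3
      generalize hx : nm a j = x at m3 m
      rcases m3 with m3 | m3 | m3
      · cases m3; obtain rfl := nm_inj.1 (hx.trans hr.symm); exact .inr ⟨m1, m2⟩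
      · cases m3; obtain rfl := nm_inj.1 (hx.trans hp.symm); exact .inl ⟨m1, m2⟩
      · omega
    have e3 : y r = 0 ∨ μ r p ∧ y r + y p = 1 ∨ μ r q ∧ y r + y q = 1 := by
      refine pos.imp_right fun ⟨j, m1, m2, m3⟩ => ?_
      have m := mem_vs.1 (nm_mem a j)
      rw [hr] at m3
      generalize hx : nm a j = x at m3 m
      rcases m3 with m3 | m3 | m3
      · cases m3
      · cases m3
        · obtain rfl := nm_inj.1 (hx.trans hp.symm); exact .inl ⟨m1, m2⟩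
        · obtain rfl := nm_inj.1 (hx.trans hq.symm); exact .inr ⟨m1, m2⟩
      · omega
    have n1 : p ≠ q := fun h => by rw [h, hq] at hp; cases hp
    have n2 : p ≠ r := fun h => by rw [h, hr] at hp; cases hp
    have n3 : q ≠ r := fun h => by rw [h, hr] at hq; cases hq
    have n4 : ∀ i, (nm a i = (3, 0, e, 0) ∨ nm a i = (4, 0, e, 0)) → i ≠ q ∧ i ≠ r := fun i h => by
      constructor <;> rintro rfl
      · rw [hq] at h; simp at h
      · rw [hr] at h; simp at h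
    exact tri_aux y0 sy fn c1 c2 c3 e1 e2 e3 n1 n2 n3 n4
  let S := (range n.length).filter fun u => ∃ i v, (nm a i = (3, 0, (u, v), 0) ∨ nm a i = (4, 0, (v, u), 0)) ∧ y i < 1
  refine ⟨S, fun x hx => mem_range.1 (mem_filter.1 hx).1, fun ⟨u, v⟩ he => ?_, ?_⟩
  · have := h0 _ he
    obtain ⟨i, h | h, l⟩ := tri _ he
    · exact .inl (mem_filter.2 ⟨mem_range.2 (by omega), i, v, .inl h, l⟩)
    · exact .inr (mem_filter.2 ⟨mem_range.2 (by omega), i, u, .inr h, l⟩)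
  have := card_le_card_of_forall_subsingleton (s := S ×ˢ es.toFinset ×ˢ range 3) (t := F.disjSum (range 2 ×ˢ es.toFinset))
    (fun x b => ∃ i j, nm a i = (5, x) ∧ μ i j ∧
      (nm a j = (6, x) ∧ b = .inl s(i, j) ∨ ∃ t e, nm a j = (t + 3, 0, e, 0) ∧ b = .inr (t, e))) ?_ ?_
  · rcases S.eq_empty_or_nonempty with h | ⟨u, hu⟩
    · simp [h]
    obtain ⟨i, v, h, -⟩ := (mem_filter.1 hu).2
    have := List.length_pos_of_mem (mem_vs.1 (nm_mem a i)).1
    simp only [card_product, card_disjSum, card_range, List.toFinset_card_of_nodup hn, inst, a] at *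
    by_contra hc
    nlinarith [Nat.mul_le_mul_right es.length (show k + 1 ≤ S.card by omega)]
  · rintro ⟨u, e, t⟩ hx
    simp only [mem_product, List.mem_toFinset, mem_range, S, mem_filter] at hx
    obtain ⟨⟨h1, i, v, h2, h3⟩, h4, h5⟩ := hx
    obtain ⟨c, hc⟩ := nm_surj (a := a) (x := (5, u, e, t)) (mem_vs.2 (by simp [a, *]))
    have m := (mem_vs.1 (nm_mem a i)).1
    have : 1 ≤ y i + y c := by
      rcases h2 with h | h <;> rw [h] at m
      · exact cv (by rw [h, hc]; exact .ac m h4 h5)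
      · exact cv (by rw [h, hc]; exact .bc m h4 h5)
    obtain ⟨j, m1, -, m3⟩ := (pos (i := c)).resolve_left (by linarith)
    rw [hc] at m3
    generalize hx : nm a j = x at m3
    rcases m3 with m3 | m3 | m3
    · cases m3
    · cases m3 with
      | ac h => exact ⟨.inr (0, _), by simpa using h, c, j, hc, m1, .inr ⟨0, _, hx, rfl⟩⟩
      | bc h => exact ⟨.inr (1, _), by simpa using h, c, j, hc, m1, .inr ⟨1, _, hx, rfl⟩⟩
    · have e6 : x = (6, u, e, t) := Prod.ext (by omega) m3.2.symm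
      refine ⟨.inl s(c, j), ?_, c, j, hc, m1, .inl ⟨hx.trans e6, rfl⟩⟩
      rcases (tight _ _ m1).1 with h | h
      · have := adj_iff.1 h
        rw [hc, hx, e6] at this
        rcases this with h | h <;> cases h
      · simpa using h.1
  · rintro b - x ⟨-, i, j, h1, h2, h3⟩ x' ⟨-, i', j', h1', h2', h3'⟩
    have : i = i' := by
      rcases h3 with ⟨h3, rfl⟩ | ⟨t, e, h3, rfl⟩ <;> rcases h3' with ⟨h3', h⟩ | ⟨t', e', h3', h⟩
      · rcases Sym2.eq_iff.1 (Sum.inl.inj h) with h | ⟨rfl, -⟩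
        · exact h.1
        · rw [h1] at h3'; cases h3'
      · cases h
      · cases h
      · cases h
        obtain rfl := nm_inj.1 (h3.trans h3'.symm)
        exact fn _ _ _ (sy _ _ h2) (sy _ _ h2')
    subst this
    exact (Prod.mk.inj (h1.symm.trans h1')).2

theorem result : NPHard fun I : {I : Inst // Nonneg I} => EdgeAdd I.1 :=
  NPHard.of_vc (fun a => ⟨inst a, nonneg a⟩) (pt_inst.subtype _) fun _ _ _ h0 hn _ =>
    ⟨fun ⟨_, _, h1, h2⟩ => yes h0 h1 h2, no h0 hn⟩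

end Pool.Agent.Results.MP_6f953e_lc.Hard
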